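import Pool.Agent.SC15.F.Final

/-!
# MP_cf6277_nt, Q1: the supercongruence for `∑ C(2k,k)^2 C(3k,k) / 15^(3k)` modulo `p^2`

`SC15.S p = ∑_{k<p} C(2k,k)^2 C(3k,k) / 15^(3k)` in `ℚ`; `SC15.CongSq p a b` says that the
denominator of the rational number `(a - b) / p^2` is prime to `p`.

Proof. The curve `E_b : y^2 + x y + b y = x^3` with `54 * 25 * b = 25 + 11 √5` has an endomorphism of
degree 16 which multiplies the invariant differential by `1 - √-15` (a cycle of four 2-isogenies).
Degrees of isogenies are computed as heights on the function field; the resulting multiplicative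
quadratic form on a commutative ring of endomorphisms forces the trace `a` of the Frobenius over the
field with `p^2` elements to satisfy `4 p^2 - a^2 = 15 z^2`, and the 3-torsion point gives
`a = p^2 + 1 mod 3`. Formal groups over the Witt vectors give congruences modulo `p^2` for the
coefficients of the invariant differential, and a polynomial identity modulo `p^2` together with the
four 2-isogenies shows that the truncated hypergeometric series `P(b)` satisfies
`a = P(b) P(b^σ) mod p^2`. Clausen's formula modulo `p^2` and a reflection formula finish the proof.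
-/

namespace Pool.Agent.Results.MP_cf6277_nt.FullSupercongruence

open SC15

/-- For every prime `p > 5` the congruence of Q1 holds; the representations `p = x^2 + 15 y^2` and
`p = 3 x^2 + 5 y^2` exist in the respective cases. -/
theorem result (p : ℕ) (hp : p.Prime) (h5 : 5 < p) :
    ((p % 15 = 1 ∨ p % 15 = 4) → (∃ x y : ℤ, (p : ℤ) = x ^ 2 + 15 * y ^ 2) ∧
      ∀ x y : ℤ, (p : ℤ) = x ^ 2 + 15 * y ^ 2 → CongSq p (S p) (4 * x ^ 2 - 2 * p)) ∧
    ((p % 15 = 2 ∨ p % 15 = 8) → (∃ x y : ℤ, (p : ℤ) = 3 * x ^ 2 + 5 * y ^ 2) ∧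
      ∀ x y : ℤ, (p : ℤ) = 3 * x ^ 2 + 5 * y ^ 2 → CongSq p (S p) (2 * p - 12 * x ^ 2)) ∧
    ((p % 15 = 7 ∨ p % 15 = 11 ∨ p % 15 = 13 ∨ p % 15 = 14) → CongSq p (S p) 0) :=
  SC15.full p hp h5

end Pool.Agent.Results.MP_cf6277_nt.FullSupercongruence
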